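-- MP_b9ea36_ag: a bipartite graph with minimum degree 3 (so it is its own 3-core) whose only
-- typical completion rank is 2.
import Mathlib
import Pool.Agent.Ins30.Wheel

set_option autoImplicit false

namespace Pool.Agent.Results.MP_b9ea36_ag.OnlyRankTwo

/-- A partial matrix on the set `E` of positions: a real number for every position in `E`. -/
abbrev PartialMatrix {m n : ℕ} (E : Finset (Fin m × Fin n)) : Type := {p // p ∈ E} → ℝ

/-- `A` is a real completion of the partial matrix `M`. -/
def IsCompletion {m n : ℕ} (E : Finset (Fin m × Fin n)) (M : PartialMatrix E)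
    (A : Matrix (Fin m) (Fin n) ℝ) : Prop :=
  ∀ p : {p // p ∈ E}, A p.1.1 p.1.2 = M p

/-- The real completion rank of `M`: the least rank of a real completion. -/
noncomputable def completionRank {m n : ℕ} (E : Finset (Fin m × Fin n)) (M : PartialMatrix E) : ℕ :=
  sInf {r : ℕ | ∃ A : Matrix (Fin m) (Fin n) ℝ, IsCompletion E M A ∧ A.rank = r}

/-- `r` is a typical rank of `E`: the partial matrices of real completion rank `r` contain a
non-empty open set. -/
def IsTypicalRank {m n : ℕ} (E : Finset (Fin m × Fin n)) (r : ℕ) : Prop :=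
  (interior {M : PartialMatrix E | completionRank E M = r}).Nonempty

/-- The extension of a partial matrix by zero. -/
noncomputable def ext {m n : ℕ} (E : Finset (Fin m × Fin n)) (M : PartialMatrix E) :
    Fin m → Fin n → ℝ :=
  fun i j => if h : (i, j) ∈ E then M ⟨(i, j), h⟩ else 0

open Pool.Agent.Ins30.Wheel

/-- The nonvanishing polynomial function on partial matrices. -/
noncomputable def G (M : PartialMatrix pat) : ℝ := F (ext pat M)

lemma G_analytic : AnalyticOnNhd ℝ G Set.univ := by
  have h1 : ∀ (i j : Fin 5), AnalyticOnNhd ℝ (fun M : PartialMatrix pat => ext pat M i j)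
      Set.univ := by
    intro i j
    unfold ext
    by_cases h : (i, j) ∈ pat
    · simp only [h, dif_pos]
      exact (ContinuousLinearMap.proj (R := ℝ) (φ := fun _ : {p // p ∈ pat} => ℝ)
        ⟨(i, j), h⟩).analyticOnNhd _
    · simp only [h, dif_neg, not_false_eq_true]
      exact analyticOnNhd_const
  have h2 : AnalyticOnNhd ℝ (fun M : PartialMatrix pat => ext pat M) Set.univ := by
    intro M hM
    rw [analyticAt_pi_iff]
    intro i
    rw [analyticAt_pi_iff]
    intro j
    exact h1 i j M hM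
  exact F_analytic.comp h2 (fun _ _ => Set.mem_univ _)

lemma rank_eq_two (M : PartialMatrix pat) (hM : G M ≠ 0) : completionRank pat M = 2 := by
  obtain ⟨B, hB, hr⟩ := completable (ext pat M) hM
  have hlow : ∀ A : Matrix (Fin 5) (Fin 5) ℝ, IsCompletion pat M A → 2 ≤ A.rank := by
    intro A hA
    have hval : ∀ i j : Fin 5, (i, j) ∈ pat → A i j = ext pat M i j := by
      intro i j h
      have := hA ⟨(i, j), h⟩
      simp only [ext, h, dif_pos]
      exact this
    have hF : F (ext pat M) ≠ 0 := hM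
    have hdet : ext pat M 0 0 * ext pat M 1 4 - ext pat M 0 4 * ext pat M 1 0 ≠ 0 := by
      intro h0
      apply hF
      unfold F
      have : ext pat M 0 0 * (ext pat M 1 4 * ext pat M 4 0) -
          ext pat M 1 0 * (ext pat M 0 4 * ext pat M 4 0) = 0 := by
        linear_combination (ext pat M 4 0) * h0
      rw [this]
      ring
    have e00 := hval 0 0 (by decide)
    have e14 := hval 1 4 (by decide)
    have e04 := hval 0 4 (by decide)
    have e10 := hval 1 0 (by decide)
    have hsub : ((A.submatrix ![0, 1] ![0, 4]) : Matrix (Fin 2) (Fin 2) ℝ).rank = 2 := by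
      have hu : IsUnit (A.submatrix ![0, 1] ![0, 4] : Matrix (Fin 2) (Fin 2) ℝ) := by
        rw [Matrix.isUnit_iff_isUnit_det, isUnit_iff_ne_zero, Matrix.det_fin_two]
        simp only [Matrix.submatrix_apply, Matrix.cons_val_zero, Matrix.cons_val_one]
        rw [e00, e14, e04, e10]
        exact hdet
      rw [Matrix.rank_of_isUnit _ hu]
      simp
    calc 2 = _ := hsub.symm
      _ ≤ A.rank := Matrix.rank_submatrix_le A _ _
  have hBc : IsCompletion pat M B := by
    intro p
    have := hB p.1 p.2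
    rw [this]
    have hp : (p.1.1, p.1.2) ∈ pat := p.2
    simp [ext, hp]
  have hB2 : B.rank = 2 := le_antisymm hr (hlow B hBc)
  apply le_antisymm
  · exact Nat.sInf_le ⟨B, hBc, hB2⟩
  · exact le_csInf ⟨2, B, hBc, hB2⟩ (by rintro r ⟨A, hA, rfl⟩; exact hlow A hA)

/-- The values of a partial matrix off the zero set of `G`. -/
def A0 : Fin 5 → Fin 5 → ℝ :=
  ![![1, 0, 0, 5, 1], ![6, 2, 0, 0, 1], ![0, 7, 3, 0, 1], ![0, 0, 9, 4, 1], ![1, 1, 1, 1, 0]]

lemma exists_G_ne : ∃ M : PartialMatrix pat, G M ≠ 0 := by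
  refine ⟨fun p => A0 p.1.1 p.1.2, ?_⟩
  have hv : ∀ i j : Fin 5, (i, j) ∈ pat →
      ext pat (fun p : {p // p ∈ pat} => A0 p.1.1 p.1.2) i j = A0 i j := by
    intro i j h
    simp [ext, h]
  unfold G F
  rw [hv 0 0 (by decide), hv 0 3 (by decide), hv 0 4 (by decide), hv 1 0 (by decide),
    hv 1 1 (by decide), hv 1 4 (by decide), hv 2 1 (by decide), hv 2 2 (by decide),
    hv 2 4 (by decide), hv 3 2 (by decide), hv 3 3 (by decide), hv 3 4 (by decide),
    hv 4 0 (by decide), hv 4 1 (by decide), hv 4 2 (by decide), hv 4 3 (by decide)]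
  have e00 : A0 0 0 = 1 := rfl
  have e03 : A0 0 3 = 5 := rfl
  have e04 : A0 0 4 = 1 := rfl
  have e10 : A0 1 0 = 6 := rfl
  have e11 : A0 1 1 = 2 := rfl
  have e14 : A0 1 4 = 1 := rfl
  have e21 : A0 2 1 = 7 := rfl
  have e22 : A0 2 2 = 3 := rfl
  have e24 : A0 2 4 = 1 := rfl
  have e32 : A0 3 2 = 9 := rfl
  have e33 : A0 3 3 = 4 := rfl
  have e34 : A0 3 4 = 1 := rfl
  have e40 : A0 4 0 = 1 := rfl
  have e41 : A0 4 1 = 1 := rfl
  have e42 : A0 4 2 = 1 := rfl
  have e43 : A0 4 3 = 1 := rfl
  rw [e00, e03, e04, e10, e11, e14, e21, e22, e24, e32, e33, e34, e40, e41, e42, e43]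
  norm_num

lemma G_ne_of_open (U : Set (PartialMatrix pat)) (hU : IsOpen U) (hne : U.Nonempty) :
    ∃ M ∈ U, G M ≠ 0 := by
  by_contra hcon
  push Not at hcon
  obtain ⟨M₀, hM₀⟩ := hne
  have hev : G =ᶠ[nhds M₀] (fun _ => (0 : ℝ)) := by
    filter_upwards [hU.mem_nhds hM₀] with M hM
    exact hcon M hM
  have hall : G = fun _ => (0 : ℝ) := G_analytic.eq_of_eventuallyEq analyticOnNhd_const hev
  obtain ⟨M, hM⟩ := exists_G_ne
  exact hM (by rw [hall])

/-- There is a bipartite graph with 5 row vertices, 5 column vertices and 16 edges, in which every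
vertex has degree at least 3 (so that it is its own 3-core), whose only typical completion rank
is 2. -/
theorem result : ∃ E : Finset (Fin 5 × Fin 5), E.card = 16 ∧
    (∀ i : Fin 5, 3 ≤ (Finset.univ.filter (fun j : Fin 5 => (i, j) ∈ E)).card) ∧
    (∀ j : Fin 5, 3 ≤ (Finset.univ.filter (fun i : Fin 5 => (i, j) ∈ E)).card) ∧
    ∀ r : ℕ, IsTypicalRank E r ↔ r = 2 := by
  refine ⟨pat, by decide, by decide, by decide, ?_⟩
  intro r
  constructor
  · rintro ⟨M, hM⟩
    obtain ⟨M', hM', hG⟩ := G_ne_of_open _ isOpen_interior ⟨M, hM⟩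
    have h1 := interior_subset hM'
    have h2 := rank_eq_two M' hG
    change completionRank pat M' = r at h1
    omega
  · rintro rfl
    obtain ⟨M, hM⟩ := exists_G_ne
    refine ⟨M, ?_⟩
    have hopen : IsOpen {M : PartialMatrix pat | G M ≠ 0} :=
      isOpen_ne_fun G_analytic.continuous continuous_const
    exact interior_maximal (fun M' hM' => rank_eq_two M' hM') hopen hM

end Pool.Agent.Results.MP_b9ea36_ag.OnlyRankTwo
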